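import Mathlib

/-!
Filtered groups, the cube construction, and the resulting criterion for `p`-th powers to lie deep
in the lower central series.
-/

set_option autoImplicit false

namespace Pool.Agent.Work.MP_bde882_al

open scoped commutatorElement

/-- Three subgroups lemma in the form `≤ N`. -/
theorem three_subgroups {G : Type*} [Group G] (A B C N : Subgroup G) [N.Normal]
    (h1 : ⁅⁅B, C⁆, A⁆ ≤ N) (h2 : ⁅⁅C, A⁆, B⁆ ≤ N) : ⁅⁅A, B⁆, C⁆ ≤ N := by
  have key : ∀ X : Subgroup G, X ≤ N ↔ X.map (QuotientGroup.mk' N) = ⊥ := by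
    intro X
    rw [Subgroup.map_eq_bot_iff, QuotientGroup.ker_mk']
  rw [key] at h1 h2 ⊢
  rw [Subgroup.map_commutator, Subgroup.map_commutator] at h1 h2 ⊢
  exact Subgroup.commutator_commutator_eq_bot_of_rotate h1 h2

/-- `[γ_{i+1}, γ_{j+1}] ≤ γ_{i+j+2}`. -/
theorem commutator_lcs_le {G : Type*} [Group G] (i j : ℕ) :
    ⁅(⊤ : Subgroup G).lowerCentralSeries i, (⊤ : Subgroup G).lowerCentralSeries j⁆ ≤
      (⊤ : Subgroup G).lowerCentralSeries (i + j + 1) := by
  induction j generalizing i with
  | zero => exact le_of_eq rfl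
  | succ j ih =>
    rw [Subgroup.lowerCentralSeries_succ (⊤ : Subgroup G) j, Subgroup.commutator_comm]
    apply three_subgroups
    · rw [Subgroup.commutator_comm ⊤, ← Subgroup.lowerCentralSeries_succ]
      exact (ih (i + 1)).trans (le_of_eq (by congr 1; omega))
    · have := ih i
      have h2 : ⁅⁅(⊤ : Subgroup G).lowerCentralSeries i,
          (⊤ : Subgroup G).lowerCentralSeries j⁆, ⊤⁆ ≤
        (⊤ : Subgroup G).lowerCentralSeries (i + j + 1 + 1) := by
        rw [Subgroup.lowerCentralSeries_succ]
        exact Subgroup.commutator_mono this le_rfl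
      exact h2

/-- A filtration of (a subgroup of) a group by subgroups. -/
structure Filt (A : Type*) [Group A] where
  /-- the members of the filtration -/
  S : ℕ → Subgroup A
  /-- the filtration is decreasing -/
  anti : Antitone S
  /-- commutators add weights -/
  comm : ∀ {s t : ℕ} {a b : A}, a ∈ S s → b ∈ S t → ⁅a, b⁆ ∈ S (s + t)

namespace Filt

variable {A : Type*} [Group A] (F : Filt A)

theorem conj {t : ℕ} {a b : A} (ha : a ∈ F.S 0) (hb : b ∈ F.S t) : a * b * a⁻¹ ∈ F.S t := by
  have h := F.comm ha hb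
  rw [zero_add] at h
  have h2 := mul_mem h hb
  simpa [commutatorElement_def] using h2

theorem conj' {t : ℕ} {a b : A} (ha : a ∈ F.S 0) (hb : b ∈ F.S t) : a⁻¹ * b * a ∈ F.S t := by
  have := F.conj (inv_mem ha) hb
  simpa using this

theorem mem_zero {t : ℕ} {a : A} (ha : a ∈ F.S t) : a ∈ F.S 0 := F.anti (Nat.zero_le t) ha

/-- The filtration on `A × A` of pairs `(a, b)` with `b a⁻¹` of weight larger by `w`. -/
def prod (w : ℕ) : Filt (A × A) where
  S s :=
    { carrier := {x | x.1 ∈ F.S s ∧ x.2 * x.1⁻¹ ∈ F.S (s + w)}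
      one_mem' := by simp [one_mem]
      mul_mem' := by
        rintro ⟨a, b⟩ ⟨a', b'⟩ ⟨h1, h2⟩ ⟨h1', h2'⟩
        simp only at h1 h2 h1' h2'
        refine ⟨mul_mem h1 h1', ?_⟩
        have h3 := mul_mem h2 (F.conj (F.mem_zero h1) h2')
        have e : b * a⁻¹ * (a * (b' * a'⁻¹) * a⁻¹) = (b * b') * (a * a')⁻¹ := by group
        rw [e] at h3
        exact h3
      inv_mem' := by
        rintro ⟨a, b⟩ ⟨h1, h2⟩
        simp only at h1 h2
        refine ⟨inv_mem h1, ?_⟩
        have h3 := F.conj' (F.mem_zero h1) (inv_mem h2)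
        have e : a⁻¹ * (b * a⁻¹)⁻¹ * a = b⁻¹ * (a⁻¹)⁻¹ := by group
        rw [e] at h3
        exact h3 }
  anti := by
    intro s t hst x hx
    exact ⟨F.anti hst hx.1, F.anti (Nat.add_le_add_right hst w) hx.2⟩
  comm := by
    rintro s t ⟨a, b⟩ ⟨a', b'⟩ ⟨h1, h2⟩ ⟨h1', h2'⟩
    simp only at h1 h2 h1' h2'
    refine ⟨F.comm h1 h1', ?_⟩
    show ⁅b, b'⁆ * ⁅a, a'⁆⁻¹ ∈ F.S (s + t + w)
    set d := b * a⁻¹ with hd
    set d' := b' * a'⁻¹ with hd'
    have hb : b = d * a := by simp [hd]
    have hb' : b' = d' * a' := by simp [hd']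
    have hb't : b' ∈ F.S t := by
      rw [hb']
      exact mul_mem (F.anti (Nat.le_add_right t w) h2') h1'
    have hc : ⁅a, a'⁆ ∈ F.S (s + t) := F.comm h1 h1'
    -- the four error terms
    have k1 : ⁅a, d'⁆ ∈ F.S (s + t + w) := by
      have := F.comm h1 h2'
      rwa [← add_assoc] at this
    have k2 : ⁅d', ⁅a, a'⁆⁆ ∈ F.S (s + t + w) := by
      have := F.comm h2' hc
      exact F.anti (by omega) this
    have k3 : ⁅d, b'⁆ ∈ F.S (s + t + w) := by
      have := F.comm h2 hb't
      exact F.anti (by omega) this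
    have k4 : ⁅d, ⁅a, a'⁆⁆ ∈ F.S (s + t + w) := by
      have := F.comm h2 hc
      exact F.anti (by omega) this
    have hd0 : d ∈ F.S 0 := F.mem_zero h2
    have hc0 : ⁅a, a'⁆ ∈ F.S 0 := F.mem_zero hc
    have e : ⁅b, b'⁆ * ⁅a, a'⁆⁻¹ =
        (d * (⁅a, d'⁆ * ⁅d', ⁅a, a'⁆⁆) * d⁻¹) * ⁅d, ⁅a, a'⁆⁆ *
          (⁅a, a'⁆ * (⁅d, b'⁆) * ⁅a, a'⁆⁻¹) := by
      rw [hb, hb']
      simp only [commutatorElement_def]
      group
    rw [e]
    exact mul_mem (mul_mem (F.conj hd0 (mul_mem k1 k2)) k4) (F.conj hc0 k3)

end Filt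

/-- The lower central filtration, `S 0 = S 1 = G`, `S (n + 1) = γ_{n+1}`. -/
def lcsFilt (G : Type*) [Group G] : Filt G where
  S s := (⊤ : Subgroup G).lowerCentralSeries (s - 1)
  anti := fun s t h => Subgroup.lowerCentralSeries_antitone _ (Nat.sub_le_sub_right h 1)
  comm := by
    intro s t a b ha hb
    rcases Nat.eq_zero_or_pos s with rfl | hs
    · rw [zero_add]
      have h1 : (⊤ : Subgroup G) ⊔ ⊤ = ⊤ := by simp
      have : ⁅(⊤ : Subgroup G), (⊤ : Subgroup G).lowerCentralSeries (t - 1)⁆ ≤
        (⊤ : Subgroup G).lowerCentralSeries (t - 1) := Subgroup.commutator_le_right _ _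
      exact this (Subgroup.commutator_mem_commutator (Subgroup.mem_top a) hb)
    rcases Nat.eq_zero_or_pos t with rfl | ht
    · rw [add_zero]
      have : ⁅(⊤ : Subgroup G).lowerCentralSeries (s - 1), (⊤ : Subgroup G)⁆ ≤
        (⊤ : Subgroup G).lowerCentralSeries (s - 1) := Subgroup.commutator_le_left _ _
      exact this (Subgroup.commutator_mem_commutator ha (Subgroup.mem_top b))
    have := commutator_lcs_le (G := G) (s - 1) (t - 1)
      (Subgroup.commutator_mem_commutator ha hb)
    rwa [show s - 1 + (t - 1) + 1 = s + t - 1 by omega] at this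

/-- The `n`-fold cube over `A`. -/
def Cube (A : Type*) : ℕ → Type _
  | 0 => A
  | n + 1 => Cube A n × Cube A n

/-- The group structure of the cube. -/
instance cubeGroup (A : Type*) [Group A] : (n : ℕ) → Group (Cube A n)
  | 0 => inferInstanceAs (Group A)
  | n + 1 =>
    letI := cubeGroup A n
    inferInstanceAs (Group (Cube A n × Cube A n))

section

variable {A : Type*} [Group A]

/-- Constant elements of the cube. -/
def const (a : A) : (n : ℕ) → Cube A n
  | 0 => a
  | n + 1 => (const a n, const a n)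

/-- The element of the cube that is `a` at the origin and `1` elsewhere. -/
def spike (a : A) : (n : ℕ) → Cube A n
  | 0 => a
  | n + 1 => (spike a n, 1)

theorem const_mul (a b : A) (n : ℕ) : const (a * b) n = const a n * const b n := by
  induction n with
  | zero => rfl
  | succ n ih => exact Prod.ext ih ih

theorem const_one (n : ℕ) : const (1 : A) n = 1 := by
  induction n with
  | zero => rfl
  | succ n ih => exact Prod.ext ih ih

theorem spike_one (n : ℕ) : spike (1 : A) n = 1 := by
  induction n with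
  | zero => rfl
  | succ n ih => exact Prod.ext ih rfl

/-- The element of the cube with the products of the sublists of `l` as coordinates. -/
def diag : (l : List (A × ℕ)) → Cube A l.length
  | [] => (1 : A)
  | x :: l => (diag l, const x.1 l.length * diag l)

/-- The filtration of the cube whose directions have the weights given by `l`. -/
def cubeFilt (F : Filt A) : (l : List (A × ℕ)) → Filt (Cube A l.length)
  | [] => F
  | x :: l => (cubeFilt F l).prod x.2

theorem const_mem (F : Filt A) (l : List (A × ℕ)) {s : ℕ} {a : A} (ha : a ∈ F.S s) :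
    const a l.length ∈ (cubeFilt F l).S s := by
  induction l with
  | nil => exact ha
  | cons x l ih =>
    refine ⟨ih, ?_⟩
    show const a l.length * (const a l.length)⁻¹ ∈ _
    rw [mul_inv_cancel]
    exact one_mem _

theorem diag_mem (F : Filt A) (l : List (A × ℕ)) (hl : ∀ x ∈ l, x.1 ∈ F.S x.2) :
    diag l ∈ (cubeFilt F l).S 0 := by
  induction l with
  | nil => exact one_mem _
  | cons x l ih =>
    refine ⟨ih (fun y hy => hl y (List.mem_cons_of_mem _ hy)), ?_⟩
    show const x.1 l.length * diag l * (diag l)⁻¹ ∈ (cubeFilt F l).S (0 + x.2)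
    rw [mul_inv_cancel_right, zero_add]
    exact const_mem F l (hl x List.mem_cons_self)

theorem of_spike_mem (F : Filt A) (l : List (A × ℕ)) {s : ℕ} {a : A}
    (h : spike a l.length ∈ (cubeFilt F l).S s) : a ∈ F.S (s + (l.map Prod.snd).sum) := by
  induction l generalizing s with
  | nil =>
    show a ∈ F.S (s + 0)
    exact h
  | cons x l ih =>
    have h2 : (1 : Cube A l.length) * (spike a l.length)⁻¹ ∈ (cubeFilt F l).S (s + x.2) := h.2
    rw [one_mul, inv_mem_iff] at h2
    have h3 := ih h2
    simpa [add_assoc] using h3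

theorem const_mul_diag_pow (p : ℕ) (l : List (A × ℕ)) (a : A)
    (h : ∀ s : List A, s.Sublist (l.map Prod.fst) → s ≠ [] → (a * s.prod) ^ p = 1) :
    (const a l.length * diag l) ^ p = spike (a ^ p) l.length := by
  induction l generalizing a with
  | nil =>
    show (a * 1) ^ p = a ^ p
    rw [mul_one]
  | cons x l ih =>
    refine Prod.ext ?_ ?_
    · show (const a l.length * diag l) ^ p = spike (a ^ p) l.length
      apply ih
      intro s hs hne
      exact h s (by
        rw [List.map_cons]
        exact List.Sublist.cons _ hs) hne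
    · show (const a l.length * (const x.1 l.length * diag l)) ^ p = 1
      rw [← mul_assoc, ← const_mul, ih]
      · have := h [x.1] (by
          rw [List.map_cons]
          exact List.Sublist.cons_cons _ (List.nil_sublist _)) (by simp)
        rw [List.prod_singleton] at this
        rw [this, spike_one]
      · intro s hs hne
        have := h (x.1 :: s) (by
          rw [List.map_cons]
          exact List.Sublist.cons_cons _ hs) (by simp)
        rwa [List.prod_cons, ← mul_assoc] at this

/-- Main criterion: if the `p`-th powers of all products of nonempty sublists of `l`, and of `h`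
times such products, are trivial, then `h ^ p` is deep in the filtration. -/
theorem pow_mem_of_sublists (F : Filt A) (p : ℕ) (l : List (A × ℕ)) (h : A) (v : ℕ)
    (hv : h ∈ F.S v) (hl : ∀ x ∈ l, x.1 ∈ F.S x.2)
    (h1 : ∀ s : List A, s.Sublist (l.map Prod.fst) → s ≠ [] → s.prod ^ p = 1)
    (h2 : ∀ s : List A, s.Sublist (l.map Prod.fst) → s ≠ [] → (h * s.prod) ^ p = 1) :
    h ^ p ∈ F.S (v + (l.map Prod.snd).sum) := by
  have hD : diag ((h, v) :: l) ∈ (cubeFilt F ((h, v) :: l)).S 0 := by
    apply diag_mem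
    intro x hx
    rcases List.mem_cons.1 hx with rfl | hx
    · exact hv
    · exact hl x hx
  have hp : diag ((h, v) :: l) ^ p ∈ (cubeFilt F ((h, v) :: l)).S 0 := pow_mem hD p
  have e : diag ((h, v) :: l) ^ p =
      ((1 : Cube A l.length), (spike (h ^ p) l.length : Cube A l.length)) := by
    refine Prod.ext ?_ ?_
    · show (diag l) ^ p = 1
      have := const_mul_diag_pow p l 1 (by simpa using h1)
      rw [const_one, one_mul, one_pow, spike_one] at this
      exact this
    · exact const_mul_diag_pow p l h h2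
  rw [e] at hp
  have h3 : (spike (h ^ p) l.length : Cube A l.length) * (1 : Cube A l.length)⁻¹ ∈
    (cubeFilt F l).S (0 + v) := hp.2
  rw [inv_one, mul_one, zero_add] at h3
  exact of_spike_mem F l h3

end

end Pool.Agent.Work.MP_bde882_al
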