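import Pool.Agent.Work.MP_bde882_al.Cube

/-!
Power structure forced by a subgroup of index `p ^ k` outside which all elements have order `p`.
-/

set_option autoImplicit false

namespace Pool.Agent.Work.MP_bde882_al

open Finset

/-- A list whose nonempty sublists have product outside `A`. -/
def Avoids {Q : Type*} [Group Q] (A : Subgroup Q) (l : List Q) : Prop :=
  ∀ s : List Q, s.Sublist l → s.prod ∈ A → s = []

section chain

variable {Q : Type*} [Group Q]

theorem avoids_append {A B : Subgroup Q} (hAB : A ≤ B) {l l' : List Q} (h : Avoids A l)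
    (h' : Avoids B l') (hl : ∀ x ∈ l, x ∈ B) : Avoids A (l ++ l') := by
  intro s hs hprod
  obtain ⟨s1, s2, rfl, h1, h2⟩ := List.sublist_append_iff.1 hs
  have hs1 : s1.prod ∈ B := Subgroup.list_prod_mem _ (fun x hx => hl x (h1.subset hx))
  rw [List.prod_append] at hprod
  have hs2 : s2.prod ∈ B := by
    have := mul_mem (inv_mem hs1) (hAB hprod)
    simpa using this
  have e2 := h' s2 h2 hs2
  subst e2
  rw [List.prod_nil, mul_one] at hprod
  rw [h s1 h1 hprod]
  rfl

theorem avoids_replicate {p : ℕ} (hp : p.Prime) {A : Subgroup Q} {x : Q} (hx : x ∉ A)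
    (hxp : x ^ p = 1) : Avoids A (List.replicate (p - 1) x) := by
  intro s hs hprod
  obtain ⟨j, hj, rfl⟩ := List.sublist_replicate_iff.1 hs
  rw [List.prod_replicate] at hprod
  rcases Nat.eq_zero_or_pos j with rfl | hj0
  · rfl
  exfalso
  have hjp : j < p := by
    have := hp.pos
    omega
  have hcop : Nat.Coprime j p :=
    ((Nat.Prime.coprime_iff_not_dvd hp).2 (Nat.not_dvd_of_pos_of_lt hj0 hjp)).symm
  apply hx
  have h1 : x = x ^ (Nat.gcd j p) := by rw [hcop.gcd_eq_one, pow_one]
  rw [h1]
  have hb : (x ^ (Nat.gcd j p) : Q) = (x ^ j) ^ (Nat.gcdA j p) * (x ^ p) ^ (Nat.gcdB j p) := by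
    rw [← zpow_natCast x (Nat.gcd j p), Nat.gcd_eq_gcd_ab, zpow_add, zpow_mul, zpow_mul,
      zpow_natCast, zpow_natCast]
  rw [hb, hxp, one_zpow, mul_one]
  exact Subgroup.zpow_mem _ hprod _

/-- Between subgroups of orders `p ^ a ≤ p ^ (a + d)` there is an avoiding list of length
`d (p - 1)`. -/
theorem exists_list_step [Finite Q] {p : ℕ} (hp : p.Prime) (hexp : ∀ x : Q, x ^ p = 1) (d : ℕ) :
    ∀ (A B : Subgroup Q) (a : ℕ), A ≤ B → Nat.card A = p ^ a → Nat.card B = p ^ (a + d) →
      ∃ l : List Q, l.length = d * (p - 1) ∧ (∀ x ∈ l, x ∈ B) ∧ Avoids A l := by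
  have := Fact.mk hp
  induction d with
  | zero =>
    intro A B a hAB hA hB
    refine ⟨[], by simp, by simp, ?_⟩
    intro s hs _
    exact List.sublist_nil.1 hs
  | succ d ih =>
    intro A B a hAB hA hB
    have hA' : Nat.card (A.subgroupOf B) = p ^ a := by
      rw [← hA]
      exact Nat.card_congr (Subgroup.subgroupOfEquivOfLe hAB).toEquiv
    obtain ⟨K0, hK0, hAK0⟩ := Sylow.exists_subgroup_card_pow_succ (G := B) (p := p) (n := a)
      (by rw [hB]; exact pow_dvd_pow p (by omega)) hA'
    set K : Subgroup Q := K0.map B.subtype with hK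
    have hKcard : Nat.card K = p ^ (a + 1) := by
      rw [← hK0]
      exact Nat.card_congr (K0.equivMapOfInjective _ B.subtype_injective).symm.toEquiv
    have hKB : K ≤ B := by
      rw [hK]
      exact Subgroup.map_subtype_le K0
    have hAK : A ≤ K := by
      intro x hx
      refine ⟨⟨x, hAB hx⟩, hAK0 ?_, rfl⟩
      exact hx
    have hne : ¬ K ≤ A := by
      intro h
      have e : A = K := le_antisymm hAK h
      rw [← e, hA] at hKcard
      have := Nat.pow_right_injective hp.two_le hKcard
      omega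
    obtain ⟨x, hxK, hxA⟩ := SetLike.not_le_iff_exists.1 hne
    obtain ⟨l', hl'len, hl'B, hl'⟩ := ih K B (a + 1) hKB hKcard (by rw [hB]; congr 1; omega)
    refine ⟨List.replicate (p - 1) x ++ l', ?_, ?_, ?_⟩
    · rw [List.length_append, List.length_replicate, hl'len]
      ring
    · intro y hy
      rcases List.mem_append.1 hy with hy | hy
      · rw [List.eq_of_mem_replicate hy]
        exact hKB hxK
      · exact hl'B y hy
    · apply avoids_append hAK (avoids_replicate hp hxA (hexp x)) hl'
      intro y hy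
      rw [List.eq_of_mem_replicate hy]
      exact hxK

/-- Weighted avoiding list for a descending series ending in the trivial subgroup. -/
theorem exists_list_series [Finite Q] {p : ℕ} (hp : p.Prime) (hexp : ∀ x : Q, x ^ p = 1) (m : ℕ) :
    ∀ (R : ℕ → Subgroup Q) (d : ℕ → ℕ) (u : ℕ), (∀ i, R (i + 1) ≤ R i) →
      (∀ i, Nat.card (R i) = p ^ d i) → R m = ⊥ →
      ∃ l : List (Q × ℕ), (∀ x ∈ l, x.1 ∈ R 0 ∧ ∃ i, x.2 = u + i + 1 ∧ x.1 ∈ R i) ∧
        Avoids ⊥ (l.map Prod.fst) ∧
        (l.map Prod.snd).sum = (p - 1) * (u * d 0 + ∑ i ∈ range m, d i) := by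
  induction m with
  | zero =>
    intro R d u hR hd h0
    have hd0 : d 0 = 0 := by
      have h1 := hd 0
      rw [h0, Subgroup.card_bot] at h1
      by_contra hne
      have := Nat.one_lt_pow hne hp.one_lt
      omega
    refine ⟨[], by simp, ?_, ?_⟩
    · intro s hs _
      exact List.sublist_nil.1 hs
    · simp [hd0]
  | succ m ih =>
    intro R d u hR hd h0
    obtain ⟨l, hl, hav, hsum⟩ := ih (fun i => R (i + 1)) (fun i => d (i + 1)) (u + 1)
      (fun i => hR (i + 1)) (fun i => hd (i + 1)) h0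
    have hle : d 1 ≤ d 0 := by
      have h1 := Nat.le_of_dvd Nat.card_pos (Subgroup.card_dvd_of_le (hR 0))
      have h2 := hd 1
      have h3 := hd 0
      have h4 : p ^ d 1 ≤ p ^ d 0 := by
        rw [← h2, ← h3]
        exact h1
      exact (Nat.pow_le_pow_iff_right hp.one_lt).1 h4
    obtain ⟨l', hlen, hmem, hav'⟩ := exists_list_step hp hexp (d 0 - d 1) (R 1) (R 0) (d 1)
      (hR 0) (hd 1) (by rw [hd 0]; congr 1; omega)
    refine ⟨l ++ l'.map (fun x => (x, u + 1)), ?_, ?_, ?_⟩
    · intro x hx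
      rcases List.mem_append.1 hx with hx | hx
      · obtain ⟨h1, i, h2, h3⟩ := hl x hx
        exact ⟨hR 0 h1, i + 1, by omega, h3⟩
      · obtain ⟨y, hy, rfl⟩ := List.mem_map.1 hx
        exact ⟨hmem y hy, 0, by simp, hmem y hy⟩
    · rw [List.map_append, List.map_map]
      have e : (l'.map (Prod.fst ∘ fun x => (x, u + 1))) = l' := by
        have : (Prod.fst ∘ fun x : Q => (x, u + 1)) = id := rfl
        rw [this, List.map_id]
      rw [e]
      apply avoids_append bot_le hav hav'
      intro x hx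
      obtain ⟨y, hy, rfl⟩ := List.mem_map.1 hx
      exact (hl y hy).1
    · rw [List.map_append, List.sum_append, hsum, List.map_map]
      have e : (l'.map (Prod.snd ∘ fun x => (x, u + 1))).sum = (d 0 - d 1) * (p - 1) * (u + 1) := by
        have : (Prod.snd ∘ fun x : Q => (x, u + 1)) = fun _ => u + 1 := rfl
        rw [this, List.map_const', List.sum_replicate, hlen]
        simp
      rw [e, Finset.sum_range_succ' (fun i => d i) m]
      obtain ⟨c, hc⟩ := Nat.exists_eq_add_of_le hle
      rw [show d 0 - d 1 = c by omega, hc]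
      show (p - 1) * ((u + 1) * d 1 + ∑ i ∈ range m, d (i + 1)) + c * (p - 1) * (u + 1) = _
      ring

end chain

/-- The lower central weight of a finite `p`-group: the sum over `i` of `log_p` of the order of
the `i`-th term of the lower central series. -/
noncomputable def lcWeight (p : ℕ) (Q : Type*) [Group Q] : ℕ :=
  ∑ i ∈ range (Group.nilpotencyClass Q),
    Nat.log p (Nat.card ((⊤ : Subgroup Q).lowerCentralSeries i))

/-- If all elements outside the normal subgroup `N` satisfy `g ^ p = 1` and `G ⧸ N` is a finite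
`p`-group, then `p`-th powers of elements of `N` are deep in the lower central series. -/
theorem pow_mem_lcs {G : Type*} [Group G] (N : Subgroup G) [N.Normal] {p : ℕ} (hp : p.Prime)
    {k : ℕ} (hk : N.index = p ^ k) (hN : ∀ g : G, g ∉ N → g ^ p = 1) {h : G} (hh : h ∈ N)
    {v : ℕ} (hv : h ∈ (⊤ : Subgroup G).lowerCentralSeries v) :
    h ^ p ∈ (⊤ : Subgroup G).lowerCentralSeries (v + (p - 1) * lcWeight p (G ⧸ N)) := by
  classical
  have := Fact.mk hp
  set Q := G ⧸ N with hQ
  have hcard : Nat.card Q = p ^ k := by rw [← hk]; rfl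
  have : Finite Q := Nat.finite_of_card_ne_zero (by rw [hcard]; exact (pow_pos hp.pos k).ne')
  have hpQ : IsPGroup p Q := IsPGroup.of_card hcard
  have : Group.IsNilpotent Q := hpQ.isNilpotent
  have hexp : ∀ x : Q, x ^ p = 1 := by
    intro x
    obtain ⟨g, rfl⟩ := QuotientGroup.mk_surjective x
    by_cases hg : g ∈ N
    · rw [(QuotientGroup.eq_one_iff g).2 hg, one_pow]
    · rw [← QuotientGroup.mk_pow, hN g hg]
      rfl
  have hcardR : ∀ i, Nat.card ((⊤ : Subgroup Q).lowerCentralSeries i) =
      p ^ Nat.log p (Nat.card ((⊤ : Subgroup Q).lowerCentralSeries i)) := by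
    intro i
    obtain ⟨n, hn⟩ := (hpQ.to_subgroup ((⊤ : Subgroup Q).lowerCentralSeries i)).exists_card_eq
    rw [hn, Nat.log_pow hp.one_lt]
  obtain ⟨l, hl, hav, hsum⟩ := exists_list_series hp hexp (Group.nilpotencyClass Q)
    (fun i => (⊤ : Subgroup Q).lowerCentralSeries i)
    (fun i => Nat.log p (Nat.card ((⊤ : Subgroup Q).lowerCentralSeries i))) 0
    (fun i => Subgroup.lowerCentralSeries_antitone _ (Nat.le_succ i)) hcardR
    Subgroup.lowerCentralSeries_nilpotencyClass
  -- lifting
  have hmap : ∀ i, ((⊤ : Subgroup G).lowerCentralSeries i).map (QuotientGroup.mk' N) =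
      (⊤ : Subgroup Q).lowerCentralSeries i := by
    intro i
    rw [Subgroup.map_lowerCentralSeries, Subgroup.map_top_of_surjective _
      (QuotientGroup.mk'_surjective N)]
  have hlift : ∀ y : Q × ℕ, ∃ g : G, (g : Q) = y.1 ∧
      (y.1 ∈ (⊤ : Subgroup Q).lowerCentralSeries (y.2 - 1) →
        g ∈ (⊤ : Subgroup G).lowerCentralSeries (y.2 - 1)) := by
    intro y
    by_cases hy : y.1 ∈ (⊤ : Subgroup Q).lowerCentralSeries (y.2 - 1)
    · rw [← hmap] at hy
      obtain ⟨g, hg, hgy⟩ := hy
      exact ⟨g, hgy, fun _ => hg⟩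
    · obtain ⟨g, hg⟩ := QuotientGroup.mk_surjective y.1
      exact ⟨g, hg, fun h => absurd h hy⟩
  choose φ hφ1 hφ2 using hlift
  set L : List (G × ℕ) := l.map (fun y => (φ y, y.2)) with hL
  have hLsnd : (L.map Prod.snd).sum = (p - 1) * lcWeight p Q := by
    rw [hL, List.map_map]
    have e : (Prod.snd ∘ fun y : Q × ℕ => (φ y, y.2)) = Prod.snd := rfl
    rw [e, hsum]
    simp [lcWeight]
  have hLw : ∀ x ∈ L, x.1 ∈ (lcsFilt G).S x.2 := by
    intro x hx
    obtain ⟨y, hy, rfl⟩ := List.mem_map.1 hx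
    obtain ⟨-, i, h1, h2⟩ := hl y hy
    apply hφ2 y
    have e : y.2 - 1 = i := by omega
    rw [e]
    exact h2
  have hLs : ∀ s : List G, s.Sublist (L.map Prod.fst) → s ≠ [] → s.prod ∉ N := by
    intro s hs hne hprod
    rw [hL, List.map_map] at hs
    obtain ⟨l1, hl1, rfl⟩ := List.sublist_map_iff.1 hs
    apply hne
    have h1 : (l1.map Prod.fst).prod ∈ (⊥ : Subgroup Q) := by
      rw [Subgroup.mem_bot]
      have e : ((l1.map (Prod.fst ∘ fun y : Q × ℕ => (φ y, y.2))).prod : G) =
        (l1.map φ).prod := rfl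
      rw [e] at hprod
      have e2 : (((l1.map φ).prod : G) : Q) = (l1.map Prod.fst).prod := by
        have := map_list_prod (QuotientGroup.mk' N) (l1.map φ)
        rw [List.map_map] at this
        have e3 : ((QuotientGroup.mk' N : G → Q) ∘ φ) = Prod.fst := by
          funext y
          exact hφ1 y
        rw [e3] at this
        exact this
      rw [← e2]
      exact (QuotientGroup.eq_one_iff _).2 hprod
    have h2 := hav (l1.map Prod.fst) (hl1.map _) h1
    rw [List.map_eq_nil_iff] at h2
    rw [h2]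
    rfl
  have hvS : h ∈ (lcsFilt G).S (v + 1) := hv
  have key := pow_mem_of_sublists (lcsFilt G) p L h (v + 1) hvS hLw
    (fun s hs hne => hN _ (hLs s hs hne))
    (fun s hs hne => hN _ (fun hmem => hLs s hs hne (by
      have := mul_mem (inv_mem hh) hmem
      simpa using this)))
  rw [hLsnd] at key
  have e : v + 1 + (p - 1) * lcWeight p Q - 1 = v + (p - 1) * lcWeight p Q := by omega
  have key2 : h ^ p ∈ (⊤ : Subgroup G).lowerCentralSeries (v + 1 + (p - 1) * lcWeight p Q - 1) :=
    key
  rw [e] at key2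
  exact key2

/-- The Hughes subgroup `H_p(G)`: the subgroup generated by the elements of order `≠ p`. -/
def hughes (p : ℕ) (G : Type*) [Group G] : Subgroup G :=
  Subgroup.closure {x : G | orderOf x ≠ p}

instance hughes_normal (p : ℕ) (G : Type*) [Group G] : (hughes p G).Normal := by
  unfold hughes
  have h : Subgroup.closure {x : G | orderOf x ≠ p} =
      Subgroup.normalClosure {x : G | orderOf x ≠ p} := by
    apply le_antisymm Subgroup.closure_le_normalClosure
    rw [Subgroup.normalClosure, Subgroup.closure_le]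
    intro y hy
    rw [Group.mem_conjugatesOfSet_iff] at hy
    obtain ⟨x, hx, hc⟩ := hy
    apply Subgroup.subset_closure
    show orderOf y ≠ p
    obtain ⟨c, hc⟩ := isConj_iff.1 hc
    have : orderOf (MulAut.conj c x) = orderOf x := by
      exact orderOf_injective (MulAut.conj c).toMonoidHom (MulAut.conj c).injective x
    rw [MulAut.conj_apply, hc] at this
    rw [this]
    exact hx
  rw [h]
  infer_instance

theorem pow_eq_one_of_not_mem_hughes {p : ℕ} {G : Type*} [Group G] {g : G}
    (hg : g ∉ hughes p G) : g ^ p = 1 := by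
  have h : orderOf g = p := by
    by_contra h
    exact hg (Subgroup.subset_closure h)
  rw [← h]
  exact pow_orderOf_eq_one g

theorem exists_pow_ne_one {p : ℕ} (hp : p.Prime) {G : Type*} [Group G]
    (hne : hughes p G ≠ ⊥) : ∃ h ∈ hughes p G, h ^ p ≠ 1 := by
  by_contra hcon
  push Not at hcon
  apply hne
  rw [eq_bot_iff]
  unfold hughes
  rw [Subgroup.closure_le]
  intro x hx
  have h1 := hcon x (Subgroup.subset_closure hx)
  have h2 := orderOf_dvd_of_pow_eq_one h1
  rcases (Nat.dvd_prime hp).1 h2 with h3 | h3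
  · rw [orderOf_eq_one_iff] at h3
    rw [h3]
    exact one_mem _
  · exact absurd h3 hx

section weight

variable {Q : Type*} [Group Q] [Finite Q] {p : ℕ}

theorem le_lcWeight (hp : p.Prime) (k : ℕ) (hk : Nat.card Q = p ^ k) :
    k ≤ lcWeight p Q := by
  have := Fact.mk hp
  rcases Nat.eq_zero_or_pos k with rfl | hk0
  · exact Nat.zero_le _
  have : Group.IsNilpotent Q := (IsPGroup.of_card hk).isNilpotent
  have hc : 0 < Group.nilpotencyClass Q := by
    rw [Nat.pos_iff_ne_zero]
    intro h0
    have h1 := Subgroup.lowerCentralSeries_nilpotencyClass (G := Q)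
    rw [h0, Subgroup.lowerCentralSeries_zero] at h1
    have h2 : Nat.card (⊤ : Subgroup Q) = 1 := by rw [h1]; exact Subgroup.card_bot
    rw [Subgroup.card_top, hk] at h2
    have := Nat.one_lt_pow hk0.ne' hp.one_lt
    omega
  have h1 : Nat.log p (Nat.card ((⊤ : Subgroup Q).lowerCentralSeries 0)) = k := by
    rw [Subgroup.lowerCentralSeries_zero, Subgroup.card_top, hk, Nat.log_pow hp.one_lt]
  calc k = Nat.log p (Nat.card ((⊤ : Subgroup Q).lowerCentralSeries 0)) := h1.symm
    _ ≤ lcWeight p Q := Finset.single_le_sum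
        (f := fun i => Nat.log p (Nat.card ((⊤ : Subgroup Q).lowerCentralSeries i)))
        (fun i _ => Nat.zero_le _) (Finset.mem_range.2 hc)

theorem succ_le_lcWeight (hp : p.Prime) (k : ℕ) (hk : Nat.card Q = p ^ k)
    (hna : commutator Q ≠ ⊥) : k + 1 ≤ lcWeight p Q := by
  have := Fact.mk hp
  have hpQ : IsPGroup p Q := IsPGroup.of_card hk
  have : Group.IsNilpotent Q := hpQ.isNilpotent
  have hc : 1 < Group.nilpotencyClass Q := by
    by_contra hle
    have h1 := (Subgroup.lowerCentralSeries_eq_bot_iff_nilpotencyClass_le (G := Q) (n := 1)).2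
      (not_lt.1 hle)
    rw [Subgroup.top_lowerCentralSeries_one] at h1
    exact hna h1
  have h1 : Nat.log p (Nat.card ((⊤ : Subgroup Q).lowerCentralSeries 0)) = k := by
    rw [Subgroup.lowerCentralSeries_zero, Subgroup.card_top, hk, Nat.log_pow hp.one_lt]
  have h2 : 1 ≤ Nat.log p (Nat.card ((⊤ : Subgroup Q).lowerCentralSeries 1)) := by
    obtain ⟨n, hn⟩ := (hpQ.to_subgroup ((⊤ : Subgroup Q).lowerCentralSeries 1)).exists_card_eq
    rw [hn, Nat.log_pow hp.one_lt]
    rw [Nat.one_le_iff_ne_zero]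
    intro h0
    rw [h0, pow_zero, Subgroup.card_eq_one, Subgroup.top_lowerCentralSeries_one] at hn
    exact hna hn
  unfold lcWeight
  obtain ⟨c, hc'⟩ := Nat.exists_eq_add_of_le (show 2 ≤ Group.nilpotencyClass Q from hc)
  rw [hc', add_comm 2 c, Finset.sum_range_succ', Finset.sum_range_succ']
  have h3 : Nat.log p (Nat.card ((⊤ : Subgroup Q).lowerCentralSeries (0 + 1))) =
    Nat.log p (Nat.card ((⊤ : Subgroup Q).lowerCentralSeries 1)) := rfl
  omega

end weight

/-- The class bound. -/
theorem lt_nilpotencyClass {p : ℕ} (hp : p.Prime) {G : Type*} [Group G] [Finite G]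
    (hG : IsPGroup p G) (hne : hughes p G ≠ ⊥) {k : ℕ} (hk : (hughes p G).index = p ^ k) :
    (p - 1) * lcWeight p (G ⧸ hughes p G) < Group.nilpotencyClass G := by
  have := Fact.mk hp
  have : Group.IsNilpotent G := hG.isNilpotent
  obtain ⟨h, hh, hpow⟩ := exists_pow_ne_one hp hne
  have h1 := pow_mem_lcs (hughes p G) hp hk (fun g hg => pow_eq_one_of_not_mem_hughes hg) hh
    (v := 0) (Subgroup.mem_top h)
  rw [zero_add] at h1
  by_contra hle
  have h2 := (Subgroup.lowerCentralSeries_eq_bot_iff_nilpotencyClass_le (G := G)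
    (n := (p - 1) * lcWeight p (G ⧸ hughes p G))).2 (not_lt.1 hle)
  rw [h2, Subgroup.mem_bot] at h1
  exact hpow h1

end Pool.Agent.Work.MP_bde882_al
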